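import Pool.Agent.P.MP_9344a7_nt.Nh.Iface
import Pool.Agent.P.MP_9344a7_nt.Lwm
import Pool.Agent.P.MP_9344a7_nt.Gt.M8
import Pool.Agent.P.MP_9344a7_nt.Hy.M2

/-! Steps CVB, PLO, ZT, DIR, PHI, HB. -/

set_option linter.unusedVariables false

namespace Pool.Agent.P.MP_9344a7_nt.Nh

section

set_option linter.unusedSectionVars false
open Polynomial Finset
open Pool.Agent.P.MP_6f117a_ag (Place FF)
open Pool.Agent.P.MP_ab3ecb_nt.Inv (Dv deg SA LS)
open Pool.Agent.P.MP_9344a7_nt.R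
open Pool.Agent.P.MP_9344a7_nt.CoreC (cc)
open Pool.Agent.P.MP_9344a7_nt.Hy
open scoped Classical ComplexConjugate

theorem p_CVB :
    S_CVB := by
  intro F E _ _ _ _ _ K g σ hg hG hF
  have h1 := hF.cnt (2 * g - 2) K (hG.phK σ) (by rw [hG.dgK]; omega)
  rw [hG.llK] at h1
  have h2 : 1 < Fintype.card F ^ g := Nat.one_lt_pow hg.ne' Fintype.one_lt_card
  obtain ⟨W, hW⟩ : ((R.ef σ (2 * g - 2)).filter
      fun A : Dv (AlgebraicClosure F) E => (A : Pic (AlgebraicClosure F) E) = K).Nonempty := by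
    rw [← card_pos, Nat.pos_iff_ne_zero]
    intro e
    rw [e] at h1
    omega
  obtain ⟨h3, h4⟩ := mem_filter.1 hW
  obtain ⟨h5, h6, -⟩ := (hF.ef _ _).1 h3
  refine ⟨W, h4, h5, fun D => ?_, dm_eq.2 h6⟩
  have h7 := hG.rg (D : Pic (AlgebraicClosure F) E)
  rwa [← h4, ← QuotientAddGroup.mk_sub, ll_mk, ll_mk, dg_mk] at h7

end

section

set_option linter.unusedSectionVars false
open Polynomial Finset
open Pool.Agent.P.MP_6f117a_ag (Place FF)
open Pool.Agent.P.MP_ab3ecb_nt.Inv (Dv deg SA LS)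
open Pool.Agent.P.MP_9344a7_nt.R
open Pool.Agent.P.MP_9344a7_nt.CoreC (cc)
open Pool.Agent.P.MP_9344a7_nt.Hy
open scoped Classical ComplexConjugate

section plo

open scoped Polynomial.Bivariate

lemma plo_it {k E : Type} [Field k] [Field E] [Algebra k E] {σ : SA k E} {Q : ℕ}
    (h : ∀ c, σ.s0 c = c ^ Q) {z : E} (hz : σ.s z = z) {P : Place k E} {a : k}
    (e : P.v (z - algebraMap k E a) < 1) :
    ∀ m, (σ.pl^[m] P).v (z - algebraMap k E (a ^ Q ^ m)) < 1
  | 0 => by simpa using e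
  | m + 1 => by
    rw [Function.iterate_succ_apply', pow_succ, pow_mul, ← h, ← σ.h, ← hz, ← map_sub, σ.pl_v]
    exact plo_it h hz e m

lemma plo_irr {F κ : Type} [Field F] [Field κ] [Algebra F κ] [Algebra.IsAlgebraic F κ]
    {Ψ : F[X][Y]} (h : Irreducible (Ψ.map (mapRingHom (algebraMap F (AlgebraicClosure F))))) :
    Irreducible ((Ψ.map (mapRingHom (algebraMap F κ))).map
      (mapRingHom (algebraMap κ (AlgebraicClosure κ)))) := by
  have := IsAlgClosure.ofAlgebraic F κ (AlgebraicClosure κ)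
  let e := (IsAlgClosure.equiv F (AlgebraicClosure F) (AlgebraicClosure κ)).toRingEquiv
  have h1 := h.map (mapEquiv (mapEquiv e))
  rw [mapEquiv_apply, Polynomial.map_map] at h1
  rw [Polynomial.map_map]
  convert h1 using 2
  refine RingHom.ext fun p => ?_
  simp only [RingHom.comp_apply, coe_mapRingHom, RingHom.coe_coe, mapEquiv_apply,
    Polynomial.map_map]
  congr 1
  refine RingHom.ext fun c => ?_
  exact ((IsAlgClosure.equiv F (AlgebraicClosure F) (AlgebraicClosure κ)).commutes c).symm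

lemma plo_num {M q N s c : ℕ} (h1 : (M + 1) * q ≤ (M + 1 + 1) * s) (h2 : s ≤ N + c)
    (h3 : (M + 1) * ((M + 2) * c) ≤ q) : M * q ≤ (M + 1) * N := by
  have h4 := Nat.mul_le_mul_left (M + 1) (h1.trans (Nat.mul_le_mul_left _ h2))
  refine le_of_mul_le_mul_left (a := M + 2) ?_ (by omega)
  nlinarith

end plo

open scoped Polynomial.Bivariate in
open Pool.Agent.P.MP_ab3ecb_nt.Inv (ev_eq ev_zero le_one_of_sub ev_eq_zero_iff) in
theorem p_PLO (hCVB : S_CVB) (hgBDP : Gt.S_BDP) (hgMDL : Gt.S_MDL) :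
    S_PLO := by
  intro g M hg
  obtain ⟨n, p1, h1⟩ := hgMDL g hg
  obtain ⟨p2, h2⟩ := Lwm.lw_M n (M + 1)
  refine ⟨p1 + p2 + (M + 1) * ((M + 2) * (2 * (2 * n * n) * n)),
    fun F E _ _ _ _ _ K σ hp hG hF m hm => ?_⟩
  obtain ⟨W, -, -, w1, w2⟩ := hCVB F E K g σ (by omega) hG hF
  obtain ⟨a, b, Ψ, ha, hb, ht, ba, bb, hab, hmo, hd, hn, hc, hi, h0⟩ :=
    h1 F ⟨E, σ, hF.fr, W, w1, w2⟩ (by omega)
  have : Fact (ringChar F).Prime := ⟨CharP.char_is_prime F _⟩
  have : NeZero m := ⟨hm⟩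
  let κ := FiniteField.Extension F (ringChar F) m
  let φ : κ →ₐ[F] AlgebraicClosure F := IsAlgClosed.lift
  have := Fintype.ofFinite κ
  have hκ : Nat.card κ = Fintype.card F ^ m := by
    rw [FiniteField.natCard_extension, Nat.card_eq_fintype_card]
  have fix : ∀ a : κ, φ a ^ Fintype.card F ^ m = φ a := fun a => by
    rw [← map_pow, ← hκ, Nat.card_eq_fintype_card, FiniteField.pow_card]
  have h3 := h2 κ (Ψ.map (mapRingHom (algebraMap F κ)))
    (by rw [← Algebra.ringChar_eq F κ]; omega) (hmo.map _) (natDegree_map_le.trans hn)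
    (fun i => by rw [coeff_map]; exact natDegree_map_le.trans (hc i)) (plo_irr hi)
  set Ψ' := Ψ.map (mapRingHom (algebraMap F κ)) with hΨ'
  set S := {z : κ × κ | Ψ'.evalEval z.1 z.2 = 0 ∧ (derivative Ψ').evalEval z.1 z.2 ≠ 0} with hS
  set Φ := Ψ.map (mapRingHom (algebraMap F (AlgebraicClosure F))) with hΦ
  have hΦ' : Φ = Ψ'.map (mapRingHom (φ : κ →+* AlgebraicClosure F)) := by
    rw [hΨ', Polynomial.map_map, mapRingHom_comp, AlgHom.comp_algebraMap]
  have hz : ∀ z ∈ S, Φ.evalEval (φ z.1) (φ z.2) = 0 := fun z hz => by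
    rw [hΦ']
    exact (map_mapRingHom_evalEval (φ : κ →+* AlgebraicClosure F) _ _ _).trans (by
      rw [hz.1, map_zero])
  have hm' : Φ.Monic := hmo.map _
  have hd' : Φ.natDegree = Ψ.natDegree := hmo.natDegree_map _
  have hc' : ∀ i, (Φ.coeff i).natDegree ≤ n := fun i => by
    rw [hΦ, coeff_map]
    exact natDegree_map_le.trans (hc i)
  have hk := Gt.npt_ker ht hm' hi h0
  obtain ⟨b1, b2⟩ := hgBDP _ _ n n a b (derivative Φ) ba bb
    ((natDegree_derivative_le Φ).trans (by omega)) fun i => by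
      rw [coeff_derivative, ← Nat.cast_succ, mul_comm, ← nsmul_eq_mul]
      exact (natDegree_smul_le _ _).trans (hc' _)
  have b3 := (hgBDP _ _ n n a b Φ ba bb (hd'.trans_le hn) hc').2
  have hq : ringChar F ≤ Fintype.card F ^ m :=
    Gt.char_le.trans (Nat.le_self_pow hm _)
  rw [hκ] at h3
  obtain ⟨z0, c0⟩ : S.Nonempty := Set.nonempty_of_ncard_ne_zero fun e => by
    rw [e, mul_zero, Nat.le_zero, mul_eq_zero] at h3
    omega
  have hne : aevalAeval a b (derivative Φ) ≠ 0 := fun e => by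
    have c3 := eq_zero_of_dvd_of_degree_lt (hk _ e) (degree_derivative_lt hm'.ne_zero)
    refine c0.2 ((φ : κ →+* AlgebraicClosure F).injective ?_)
    rw [← map_mapRingHom_evalEval, ← derivative_map, ← hΦ', c3, evalEval_zero, map_zero]
  obtain ⟨X, x1, x2⟩ := b1.unit hne
  have ex := fun z (hz' : z ∈ S) => Gt.npt_ctr ht hk _ _ (hz z hz')
  have := (ex z0 c0).nonempty
  choose! P p1 p2 using ex
  set T := {z : κ × κ | φ z.1 ∈ X.image fun P => MP_ab3ecb_nt.Inv.ev P a} with hT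
  have t1 : (S \ T).ncard ≤ #(fx σ m) := by
    rw [← Set.ncard_coe_finset]
    refine Set.ncard_le_ncard_of_injOn P (fun z hz' => (hF.fx m hm _).2 ?_)
      (fun z hz' y hy e => Prod.ext (φ.injective ?_) (φ.injective ?_)) (Finset.finite_toSet _)
    · have i1 := fix z.1 ▸ plo_it hF.fr.2.2 ha (p1 z hz'.1) m
      have i2 := fix z.2 ▸ plo_it hF.fr.2.2 hb (p2 z hz'.1) m
      refine Gt.npt_uni ht hm' hk (hd'.trans hd) (φ z.1) (fun Q hQ => ?_) i1 (p1 z hz'.1)
        ((ev_eq i2).trans (ev_eq (p2 z hz'.1)).symm)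
      have q1 := le_one_of_sub hQ
      have q2 := ev_eq hQ
      have q3 := (b3 Q q1 (hab Q q1)).2
      have q4 := b2 Q q1 (hab Q q1)
      rw [h0, ev_zero, q2] at q3
      rw [q2] at q4
      exact ⟨q3.symm, fun e => ((ev_eq_zero_iff q4.1).1 (q4.2.trans e)).ne
        (x2 Q fun h => hz'.2 (mem_image.2 ⟨Q, h, q2⟩))⟩
    · exact (ev_eq (p1 z hz'.1)).symm.trans (e ▸ ev_eq (p1 y hy.1))
    · exact (ev_eq (p2 z hz'.1)).symm.trans (e ▸ ev_eq (p2 y hy.1))
  have t2 : (S ∩ T).ncard ≤ 2 * (2 * n * n) * n := by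
    refine (Set.ncard_le_ncard_of_injOn (t := ↑(X.biUnion fun P =>
      (Φ.map (evalRingHom (MP_ab3ecb_nt.Inv.ev P a))).roots.toFinset.image
        fun c => (MP_ab3ecb_nt.Inv.ev P a, c)))
      (fun z => (φ z.1, φ z.2)) (fun z hz' => ?_) (fun z _ y _ e => Prod.ext
        (φ.injective (congrArg Prod.fst e)) (φ.injective (congrArg Prod.snd e)))
      (Finset.finite_toSet _)).trans ?_
    · obtain ⟨Q, q1, q2⟩ := mem_image.1 hz'.2
      refine mem_biUnion.2 ⟨Q, q1, mem_image.2 ⟨φ z.2, Multiset.mem_toFinset.2 ?_, by rw [q2]⟩⟩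
      rw [mem_roots (hm'.map _).ne_zero, IsRoot.def, map_evalRingHom_eval, q2, hz z hz'.1]
    · rw [Set.ncard_coe_finset]
      refine (card_biUnion_le_card_mul _ _ n fun Q _ => card_image_le.trans
        ((Multiset.toFinset_card_le _).trans ((card_roots' _).trans
          (natDegree_map_le.trans (hd'.trans_le hn))))).trans (Nat.mul_le_mul_right _ x1)
  refine plo_num h3 (?_ : _ ≤ _ + 2 * (2 * n * n) * n) (by omega)
  rw [← Set.ncard_inter_add_ncard_sdiff_eq_ncard S T]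
  omega

end

section

set_option linter.unusedSectionVars false
open Polynomial Finset
open Pool.Agent.P.MP_6f117a_ag (Place FF)
open Pool.Agent.P.MP_ab3ecb_nt.Inv (Dv deg SA LS)
open Pool.Agent.P.MP_9344a7_nt.R
open Pool.Agent.P.MP_9344a7_nt.CoreC (cc)
open Pool.Agent.P.MP_9344a7_nt.Hy
open scoped Classical ComplexConjugate

lemma zt_mul {W s s' : ℕ → ℂ} {p : ℂ[X]} (h : Newt W s) (h' : Newt p.coeff s') :
    Newt (fun n => PowerSeries.coeff n ((p : PowerSeries ℂ) * PowerSeries.mk W)) (s + s') := by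
  rw [nwr_iff] at *
  rw [nwr_coe] at h'
  have e : (PowerSeries.mk fun m => if m = 0 then 0 else (s + s') m) =
      (PowerSeries.mk fun m => if m = 0 then 0 else s m) +
        PowerSeries.mk fun m => if m = 0 then 0 else s' m := by
    ext n; by_cases hn : n = 0 <;> simp [hn]
  have e1 : ∀ φ : PowerSeries ℂ, (PowerSeries.mk fun n => PowerSeries.coeff n φ) = φ :=
    fun φ => PowerSeries.ext fun n => PowerSeries.coeff_mk _ _
  rw [e, e1, Derivation.leibniz, smul_eq_mul, smul_eq_mul]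
  linear_combination (p : PowerSeries ℂ) * h + PowerSeries.mk W * h'

lemma zt_coeff (A : ℕ → ℚ) (q : ℚ) (n : ℕ) : PowerSeries.coeff (n + 2)
    ((1 - PowerSeries.X) * (1 - PowerSeries.C q * PowerSeries.X) * PowerSeries.mk A) =
      A (n + 2) - (1 + q) * A (n + 1) + q * A n := by
  rw [show (1 - PowerSeries.X) * (1 - PowerSeries.C q * PowerSeries.X) * PowerSeries.mk A =
    PowerSeries.mk A - PowerSeries.C (1 + q) * (PowerSeries.X * PowerSeries.mk A) +
      PowerSeries.C q * (PowerSeries.X * (PowerSeries.X * PowerSeries.mk A)) by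
    rw [map_add, map_one]; ring]
  rw [map_add, map_sub]
  simp only [PowerSeries.coeff_C_mul, PowerSeries.coeff_succ_X_mul, PowerSeries.coeff_mk]

lemma zt_cnt {k E : Type} [Field k] [Field E] [Algebra k E] [IsAlgClosed k] [FF k E]
    {K e : Pic k E} {g : ℕ} {σ : SA k E} {Q : ℕ} (G : GB K g) (h : FB σ Q) (e1 : ph σ e = e)
    (e2 : dg e = 1) (j t : ℕ) (hj : j + 1 = g + t) (ht : g ≤ t) :
    (#(ef σ j) : ℚ) * (Q - 1) = #(cl σ 0) * (Q ^ t - 1) := by
  have c : #(cl σ j) = #(cl σ 0) := card_nbij' (· - j • e) (· + j • e)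
    (fun x hx => by
      obtain ⟨h1, h2⟩ := (h.cl _ _).1 hx
      exact (h.cl _ _).2 ⟨by rw [map_sub, map_nsmul, e1, h1], by simp [h2, e2]⟩)
    (fun x hx => by
      obtain ⟨h1, h2⟩ := (h.cl _ _).1 hx
      exact (h.cl _ _).2 ⟨by rw [map_add, map_nsmul, e1, h1], by simp [h2, e2]⟩)
    (fun x _ => sub_add_cancel _ _) fun x _ => add_sub_cancel_right _ _
  rw [← c, card_eq_sum_card_fiberwise (f := fun A : Dv k E => (A : Pic k E)) (t := cl σ j)
    fun A hA => by
      obtain ⟨-, h1, h2⟩ := (h.ef _ _).1 hA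
      exact (h.cl _ _).2 ⟨ph_inv h1, h2⟩, Nat.cast_sum, sum_mul, ← nsmul_eq_mul, ← sum_const]
  refine sum_congr rfl fun x hx => ?_
  obtain ⟨h1, h2⟩ := (h.cl _ _).1 hx
  have h3 := h.cnt j x h1 h2
  have h4 := G.rg x
  rw [ll_neg (x := K - x) (by rw [map_sub, G.dgK]; omega)] at h4
  rw [show ll x = t by omega] at h3
  have h5 := congrArg (Nat.cast : ℕ → ℚ) h3
  rw [Nat.cast_add, Nat.cast_mul, Nat.cast_sub (by have := h.fr.1; omega)] at h5
  push_cast at h5
  exact eq_sub_of_add_eq h5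

theorem p_ZT :
    S_ZT := by
  intro k E _ _ _ _ _ K e g σ Q G hg h e1 e2
  let P : PowerSeries ℚ := (1 - PowerSeries.X) * (1 - PowerSeries.C (Q : ℚ) * PowerSeries.X) *
    PowerSeries.mk fun j => (#(ef σ j) : ℚ)
  have hQ : (Q : ℚ) - 1 ≠ 0 := sub_ne_zero.2 (by have := h.fr.1; norm_cast; omega)
  have hP : ∀ n, (PowerSeries.trunc (2 * g + 1) P).coeff n = PowerSeries.coeff n P := fun n => by
    rw [PowerSeries.coeff_trunc]
    split_ifs with hn
    · rfl
    obtain ⟨t, rfl⟩ : ∃ t, n = 2 * g - 1 + t + 2 := ⟨n - (2 * g + 1), by omega⟩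
    have a0 := zt_cnt G h e1 e2 (2 * g - 1 + t) (g + t) (by omega) (by omega)
    have a1 := zt_cnt G h e1 e2 (2 * g - 1 + t + 1) (g + t + 1) (by omega) (by omega)
    have a2 := zt_cnt G h e1 e2 (2 * g - 1 + t + 2) (g + t + 2) (by omega) (by omega)
    rw [zt_coeff]
    refine mul_right_cancel₀ hQ ?_
    linear_combination -a2 + (1 + Q) * a1 - Q * a0
  have z0 : ef σ 0 = {0} := Finset.ext fun A => by
    rw [h.ef, eff_zero, mem_singleton, Set.mem_singleton_iff]
  have N1 : Newt (fun j => #(ef σ j)) fun j => #(fx σ j) := by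
    simpa using newton (ef σ) h.ef (fx σ) h.fx (fun _ => 1) fun _ _ _ _ => (one_mul _).symm
  refine ⟨PowerSeries.trunc (2 * g + 1) P, by rw [hP]; simp [P, z0],
    Nat.lt_succ_iff.1 (PowerSeries.natDegree_trunc_lt _ _), ?_⟩
  convert zt_mul N1 (nwr_mul (nwr_one 1) (nwr_one Q)) using 2 with n n
  · rw [coeff_map, hP, ← PowerSeries.coeff_map]
    congr 1
    simp only [P, map_mul, map_sub, map_one, PowerSeries.map_X, PowerSeries.map_C,
      Polynomial.coe_mul, Polynomial.coe_sub, Polynomial.coe_one, Polynomial.coe_X,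
      Polynomial.coe_C]
    rw [map_natCast (algebraMap ℚ ℂ), one_mul]
    congr 1
  · simp only [Pi.add_apply, one_pow]
    ring

end

section

set_option linter.unusedSectionVars false
open Polynomial Finset
open Pool.Agent.P.MP_6f117a_ag (Place FF)
open Pool.Agent.P.MP_ab3ecb_nt.Inv (Dv deg SA LS)
open Pool.Agent.P.MP_9344a7_nt.R
open Pool.Agent.P.MP_9344a7_nt.CoreC (cc)
open Pool.Agent.P.MP_9344a7_nt.Hy
open scoped Classical ComplexConjugate

theorem dir_cos (θ : ℝ) (a m : ℕ)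
    (h : ⌊6 * Int.fract ((a : ℝ) * θ)⌋ = ⌊6 * Int.fract (((a + m : ℕ) : ℝ) * θ)⌋) :
    1 / 2 ≤ Real.cos (m * (2 * Real.pi * θ)) := by
  have h1 := Int.abs_sub_lt_one_of_floor_eq_floor h
  set δ := Int.fract (((a + m : ℕ) : ℝ) * θ) - Int.fract ((a : ℝ) * θ) with hδ
  have h2 : |δ| ≤ 1 / 6 := by
    rw [← mul_sub, abs_mul, abs_sub_comm, ← hδ, abs_of_pos (by norm_num : (0 : ℝ) < 6)] at h1
    linarith
  have h3 : m * (2 * Real.pi * θ) = 2 * Real.pi * δ +
      ((⌊((a + m : ℕ) : ℝ) * θ⌋ - ⌊(a : ℝ) * θ⌋ : ℤ) : ℝ) * (2 * Real.pi) := by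
    simp only [hδ, Int.fract]; push_cast; ring
  rw [h3, Real.cos_add_int_mul_two_pi, ← Real.cos_abs, ← Real.cos_pi_div_three]
  have hp := Real.pi_pos
  refine Real.cos_le_cos_of_nonneg_of_le_pi (abs_nonneg _) (by linarith) ?_
  rw [abs_mul, abs_of_pos (by positivity : 0 < 2 * Real.pi)]
  nlinarith

theorem dir_re (r : ℂ) (m : ℕ) : (r ^ m).re = ‖r‖ ^ m * Real.cos (m * r.arg) := by
  conv_lhs => rw [← Complex.norm_mul_exp_arg_mul_I r]
  rw [mul_pow, ← Complex.exp_nat_mul, ← Complex.ofReal_pow, Complex.re_ofReal_mul, ← mul_assoc,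
    ← Complex.ofReal_natCast, ← Complex.ofReal_mul, Complex.exp_ofReal_mul_I_re]

theorem dir_pigeon (s : Finset ℂ) (d : ℕ) (hs : s.card ≤ d) :
    ∃ m : ℕ, m ≠ 0 ∧ m ≤ 6 ^ d ∧ ∀ r ∈ s, ‖r‖ ^ m / 2 ≤ (r ^ m).re := by
  let g : ℕ → ℂ → ℤ := fun a r => ⌊6 * Int.fract ((a : ℝ) * (r.arg / (2 * Real.pi)))⌋
  have hg : ∀ a r, (g a r).toNat < 6 := by
    intro a r
    have h1 : g a r < 6 := by
      apply Int.floor_lt.2
      have := Int.fract_lt_one ((a : ℝ) * (r.arg / (2 * Real.pi)))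
      push_cast; linarith
    omega
  have hg0 : ∀ a r, 0 ≤ g a r := fun a r =>
    Int.floor_nonneg.2 (mul_nonneg (by norm_num) (Int.fract_nonneg _))
  let f : Fin (6 ^ d + 1) → s → Fin 6 := fun a r => ⟨(g a r).toNat, hg _ _⟩
  have key : ∀ a b : Fin (6 ^ d + 1), a < b → f a = f b →
      ∃ m : ℕ, m ≠ 0 ∧ m ≤ 6 ^ d ∧ ∀ r ∈ s, ‖r‖ ^ m / 2 ≤ (r ^ m).re := by
    intro a b hab hf
    have hab' : (a : ℕ) < b := hab
    have hb := b.2
    refine ⟨b - a, by omega, by omega, fun r hr => ?_⟩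
    have h1 : (g a r).toNat = (g b r).toNat := congrArg Fin.val (congrFun hf ⟨r, hr⟩)
    have h2 : g a r = g (a + (b - a)) r := by
      rw [Nat.add_sub_cancel' hab'.le]
      have := hg0 a r; have := hg0 b r; omega
    have h3 := dir_cos _ _ _ h2
    rw [mul_div_cancel₀ _ (by positivity : 2 * Real.pi ≠ 0)] at h3
    rw [dir_re]
    have : 0 ≤ ‖r‖ ^ ((b : ℕ) - a) := by positivity
    nlinarith
  obtain ⟨a, b, hab, hf⟩ := Fintype.exists_ne_map_eq_of_card_lt f (by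
    simp only [Fintype.card_fun, Fintype.card_fin, Fintype.card_coe]
    exact Nat.lt_succ_of_le (Nat.pow_le_pow_right (by norm_num) hs))
  rcases lt_or_gt_of_ne hab with h | h
  · exact key a b h hf
  · exact key b a h hf.symm

theorem p_DIR :
    S_DIR := by
  intro d K
  refine ⟨2 * K ^ 6 ^ d, fun ρ x hd hx h r hr => ?_⟩
  by_contra hc
  push Not at hc
  obtain ⟨m, hm, hmL, hs⟩ := dir_pigeon ρ.toFinset d ((Multiset.toFinset_card_le ρ).trans hd)
  have hK : 1 ≤ K := by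
    rcases Nat.eq_zero_or_pos K with h0 | h0
    · subst h0; simp at hc; linarith
    · exact h0
  have h1 : ((ρ.map (· ^ m)).sum).re = (ρ.map fun z => (z ^ m).re).sum := by
    have := map_multiset_sum Complex.reAddGroupHom (ρ.map (· ^ m))
    simpa [Multiset.map_map] using this
  have h2 : (r ^ m).re ≤ (ρ.map fun z => (z ^ m).re).sum := by
    refine Multiset.single_le_sum (fun y hy => ?_) _ (Multiset.mem_map_of_mem _ hr)
    obtain ⟨z, hz, rfl⟩ := Multiset.mem_map.1 hy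
    exact le_trans (by positivity) (hs z (Multiset.mem_toFinset.2 hz))
  have h3 := hs r (Multiset.mem_toFinset.2 hr)
  have h4 := h m hm
  rw [h1] at h4
  have h5 : x ^ m < (K * ‖r‖) ^ m := pow_lt_pow_left₀ hc hx.le hm
  have h6 : (K : ℝ) ^ m ≤ K ^ 6 ^ d := pow_le_pow_right₀ (by exact_mod_cast hK) hmL
  have h7 : 0 ≤ ‖r‖ ^ m := by positivity
  have h8 : (0 : ℝ) ≤ K ^ 6 ^ d := by positivity
  rw [mul_pow] at h5
  push_cast at h4
  nlinarith [mul_le_mul_of_nonneg_right h6 h7, mul_le_mul_of_nonneg_left (h3.trans h2) h8]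

end

section

set_option linter.unusedSectionVars false
open Polynomial Finset
open Pool.Agent.P.MP_6f117a_ag (Place FF)
open Pool.Agent.P.MP_ab3ecb_nt.Inv (Dv deg SA LS)
open Pool.Agent.P.MP_9344a7_nt.R
open Pool.Agent.P.MP_9344a7_nt.CoreC (cc)
open Pool.Agent.P.MP_9344a7_nt.Hy
open scoped Classical ComplexConjugate

lemma phi_prod (s : Multiset ℂ) (h : 0 ∉ s) : (s.map fun a => X - C a).prod =
    C (s.map fun a => -a).prod * ofR (s.map fun a => a⁻¹) := by
  induction s using Multiset.induction_on with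
  | empty => simp [ofR]
  | cons a s ih =>
    rw [Multiset.mem_cons, not_or] at h
    have h1 : (C a * C a⁻¹ : ℂ[X]) = 1 := by rw [← C_mul, mul_inv_cancel₀ (Ne.symm h.1), C_1]
    have h2 := ih h.2
    simp only [ofR, Multiset.map_cons, Multiset.prod_cons, C_mul, C_neg] at h2 ⊢
    rw [h2]
    linear_combination (-(C (s.map fun a => -a).prod *
      ((s.map fun a => a⁻¹).map fun r => 1 - C r * X).prod * X)) * h1

lemma phi_ofR (p : ℂ[X]) (h : p.coeff 0 = 1) : ∃ ρ, p = ofR ρ ∧ ρ.card ≤ p.natDegree := by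
  have e := phi_prod p.roots fun h0 => by
    have := (isRoot_of_mem_roots h0).eq_zero
    rw [← coeff_zero_eq_eval_zero, h] at this
    exact one_ne_zero this
  have h1 := (IsAlgClosed.splits p).eq_prod_roots
  rw [e, ← mul_assoc, ← C_mul] at h1
  have h3 : (ofR (p.roots.map fun a => a⁻¹)).coeff 0 = 1 := by
    rw [coeff_zero_eq_eval_zero]
    simp [ofR, eval_multiset_prod]
  have h2 := congrArg (coeff · 0) h1
  simp only [coeff_C_mul, h3, mul_one, h] at h2
  refine ⟨p.roots.map fun a => a⁻¹, ?_, by rw [Multiset.card_map]; exact card_roots' p⟩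
  rw [← h2, C_1, one_mul] at h1
  exact h1

lemma phi_sum (ρ : Multiset ℂ) (K x : ℝ) (m : ℕ) (hm : m ≠ 0) (hK : 1 ≤ K)
    (h : ∀ r ∈ ρ, K * ‖r‖ ≤ x) : K * ‖(ρ.map (· ^ m)).sum‖ ≤ ρ.card * x ^ m := by
  induction ρ using Multiset.induction_on with
  | empty => simp
  | cons r ρ ih =>
    have h1 := ih fun t ht => h t (Multiset.mem_cons_of_mem ht)
    have h2 := pow_le_pow_left₀ (by positivity) (h r (Multiset.mem_cons_self _ _)) m
    have h3 : K * ‖r‖ ^ m ≤ K ^ m * ‖r‖ ^ m :=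
      mul_le_mul_of_nonneg_right (le_self_pow₀ hK hm) (by positivity)
    have h4 := mul_le_mul_of_nonneg_left (norm_add_le (r ^ m) (ρ.map (· ^ m)).sum)
      (zero_le_one.trans hK)
    rw [mul_pow] at h2
    rw [norm_pow] at h4
    rw [Multiset.map_cons, Multiset.sum_cons, Multiset.card_cons]
    push_cast
    linarith

theorem p_PHI (hPLO : S_PLO) (hZT : S_ZT) (hDIR : S_DIR) (hhNWR : Hy.S_NWR) :
    S_PHI := by
  intro g M hg
  obtain ⟨M0, hM0⟩ := hDIR (2 * g) (4 * g * M + 1)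
  obtain ⟨p0, hp0⟩ := hPLO g (2 * M0) hg
  refine ⟨p0 + 2 * M0 + 2 * M, fun F E _ _ _ _ _ K e σ hp b f e1 e2 m hm => ?_⟩
  obtain ⟨Z, z0, z1, z2⟩ := hZT _ E K e g σ _ b (by omega) f e1 e2
  have c0 : (Z.map (algebraMap ℚ ℂ)).coeff 0 = 1 := by rw [coeff_map, z0, map_one]
  obtain ⟨ρ, r1, r2⟩ := phi_ofR _ c0
  have r3 : ρ.card ≤ 2 * g := r2.trans (natDegree_map_le.trans z1)
  have hq := Gt.char_le (F := F)
  set q := Fintype.card F
  have q1 : ∀ m, m ≠ 0 → q ≤ q ^ m := fun m hm => Nat.le_self_pow hm q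
  have re : ∀ m, m ≠ 0 → ((ρ.map (· ^ m)).sum).re = (q : ℝ) ^ m + 1 - #(fx σ m) := fun m hm => by
    have h1 := Newt.s_eq z2 (r1 ▸ hhNWR ρ) c0 m hm
    have h2 : (ρ.map (· ^ m)).sum = (((q : ℝ) ^ m + 1 - #(fx σ m) : ℝ) : ℂ) := by
      push_cast
      linear_combination h1
    rw [h2, Complex.ofReal_re]
  have h1 := hM0 ρ q r3 (Nat.cast_pos.2 (by omega)) fun m hm => by
    have a1 : ((2 * M0 * q ^ m : ℕ) : ℝ) ≤ ((2 * M0 + 1) * #(fx σ m) : ℕ) :=
      Nat.cast_le.2 (hp0 F E K σ (by omega) b f m hm)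
    have a2 : ((2 * M0 : ℕ) : ℝ) ≤ (q ^ m : ℕ) := Nat.cast_le.2 (by have := q1 m hm; omega)
    have a3 : (0 : ℝ) ≤ M0 := Nat.cast_nonneg _
    have a4 : (0 : ℝ) ≤ #(fx σ m) := Nat.cast_nonneg _
    rw [re m hm]
    push_cast at a1 a2
    by_cases c : (#(fx σ m) : ℝ) ≤ (q : ℝ) ^ m
    · linarith
    · nlinarith
  have h2 := phi_sum ρ _ q m hm (by exact_mod_cast Nat.le_add_left 1 (4 * g * M)) h1
  have h3 := (Complex.abs_re_le_norm (ρ.map (· ^ m)).sum)
  rw [re m hm] at h3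
  have a1 : ((ρ.card : ℕ) : ℝ) ≤ (2 * g : ℕ) := Nat.cast_le.2 r3
  have a2 : ((2 * M : ℕ) : ℝ) ≤ (q ^ m : ℕ) := Nat.cast_le.2 (by have := q1 m hm; omega)
  have a3 : (2 : ℝ) ≤ g := by exact_mod_cast hg
  have a4 : (0 : ℝ) ≤ M := Nat.cast_nonneg _
  have a5 : (0 : ℝ) ≤ (q : ℝ) ^ m := by positivity
  have a6 := norm_nonneg (ρ.map (· ^ m)).sum
  push_cast at h2 a1 a2
  have a7 : 2 * g * (2 * M * ‖(ρ.map (· ^ m)).sum‖) ≤ 2 * g * (q : ℝ) ^ m := by
    have := mul_le_mul_of_nonneg_right a1 a5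
    linarith
  have a8 := le_of_mul_le_mul_left a7 (by linarith)
  have a9 := mul_le_mul_of_nonneg_left (abs_le.1 h3).1 a4
  have : ((M * #(fx σ m) : ℕ) : ℝ) ≤ ((M + 1) * q ^ m : ℕ) := by
    push_cast
    linarith
  exact_mod_cast this

end

section

set_option linter.unusedSectionVars false
open Polynomial Finset
open Pool.Agent.P.MP_6f117a_ag (Place FF)
open Pool.Agent.P.MP_ab3ecb_nt.Inv (Dv deg SA LS)
open Pool.Agent.P.MP_9344a7_nt.R
open Pool.Agent.P.MP_9344a7_nt.CoreC (cc)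
open Pool.Agent.P.MP_9344a7_nt.Hy
open scoped Classical ComplexConjugate

lemma hb_sum (j : ℕ) : ∑ i ∈ range j, 2 ^ (i + 1) ≤ j * 2 ^ j := by
  refine (sum_le_card_nsmul _ _ (2 ^ j) fun i hi => ?_).trans (by simp)
  exact Nat.pow_le_pow_right two_pos (mem_range.1 hi)

theorem p_HB :
    S_HB := by
  intro k E _ _ _ _ _ K e g σ Q hg ft e1 e2 hN
  have N1 : Newt (fun j => #(ef σ j)) fun j => #(fx σ j) := by
    simpa using newton (ef σ) ft.ef (fx σ) ft.fx (fun _ => 1) fun _ _ _ _ => (one_mul _).symm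
  have z0 : ef σ 0 = {0} := Finset.ext fun A => by
    rw [ft.ef, eff_zero, mem_singleton, Set.mem_singleton_iff]
  have h1 : ∀ j, #(ef σ j) ≤ 2 ^ j * Q ^ j := fun j => by
    induction j using Nat.strong_induction_on with
    | _ j ih =>
      rcases Nat.eq_zero_or_pos j with rfl | hj
      · simp [z0]
      have h2 : j * #(ef σ j) = ∑ i ∈ range j, #(fx σ (j - i)) * #(ef σ i) := by
        have h3 : (j : ℂ) * #(ef σ j) = ∑ i ∈ range j, (#(fx σ (j - i)) : ℂ) * #(ef σ i) := N1 j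
        exact_mod_cast h3
      refine Nat.le_of_mul_le_mul_left ?_ hj
      rw [h2, ← mul_assoc]
      refine le_trans (sum_le_sum fun i hi => ?_)
        ((sum_mul _ _ _).symm.trans_le (Nat.mul_le_mul_right _ (hb_sum j)))
      have hi := mem_range.1 hi
      refine (Nat.mul_le_mul (hN _ (by omega)) (ih i hi)).trans_eq ?_
      obtain ⟨d, rfl⟩ := Nat.exists_eq_add_of_le hi.le
      rw [Nat.add_sub_cancel_left]
      ring
  refine ⟨h1, le_trans ?_ (h1 g)⟩
  have h3 : ∀ a : J σ, ∃ A : ef σ g, ((A : Dv k E) : Pic k E) = a.1 + g • e := fun a => by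
    have d1 : dg (a.1 + g • e) = g := by simp [e2, (mem_J.1 a.2).2]
    have h6 := ft.cnt g _ (by rw [map_add, map_nsmul, e1, (mem_J.1 a.2).1]) d1
    have h7 := hg.rg (a.1 + g • e)
    by_contra hn
    rw [filter_eq_empty_iff.2 fun A hA h => hn ⟨⟨A, hA⟩, h⟩, card_empty, zero_mul, zero_add,
      eq_comm, Nat.pow_eq_one] at h6
    have := ft.fr.1
    omega
  choose φ hφ using h3
  rw [← Nat.card_eq_finsetCard]
  exact Nat.card_le_card_of_injective φ fun a b h =>
    Subtype.ext (add_right_cancel ((hφ a).symm.trans (h ▸ hφ b)))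

end

end Pool.Agent.P.MP_9344a7_nt.Nh
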