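import Pool.Agent.P.MP_9344a7_nt.Nh.Iface
import Pool.Agent.P.MP_9344a7_nt.Hy.M2
import Pool.Agent.P.MP_9344a7_nt.Hy.M5
import Pool.Agent.P.MP_9344a7_nt.Hy.M10

/-! Steps EXL, FLD, ORD, MT2, IRA, TWO, FIN, IRR. -/

set_option linter.unusedVariables false

namespace Pool.Agent.P.MP_9344a7_nt.Nh

section

set_option linter.unusedSectionVars false
open Polynomial Finset
open Pool.Agent.P.MP_6f117a_ag (Place FF)
open Pool.Agent.P.MP_ab3ecb_nt.Inv (Dv deg SA LS)
open Pool.Agent.P.MP_9344a7_nt.R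
open Pool.Agent.P.MP_9344a7_nt.CoreC (cc)
open Pool.Agent.P.MP_9344a7_nt.Hy
open scoped Classical ComplexConjugate

lemma exl_map (g : PowerSeries ℚ) :
    PowerSeries.derivative ℂ (PowerSeries.map (algebraMap ℚ ℂ) g) =
      PowerSeries.map (algebraMap ℚ ℂ) (PowerSeries.derivative ℚ g) := by
  ext n
  simp [PowerSeries.coeff_derivative]

theorem p_EXL :
    S_EXL := by
  intro q N L hL
  unfold IsLf at hL
  set f : PowerSeries ℚ := PowerSeries.mk fun m => (N m : ℚ) / m with hf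
  have f0 : PowerSeries.constantCoeff f = 0 := by simp [hf]
  have hs : PowerSeries.HasSubst f := PowerSeries.HasSubst.of_constantCoeff_zero' f0
  set E : PowerSeries ℚ := (PowerSeries.exp ℚ).subst f with hE
  have dE : PowerSeries.derivative ℚ E = E * PowerSeries.derivative ℚ f := by
    rw [hE, PowerSeries.derivative_subst hs, PowerSeries.derivative_exp]
  have E0 : PowerSeries.constantCoeff E = 1 := by
    have h : MvPowerSeries.constantCoeff E = 1 := by
      rw [hE, PowerSeries.constantCoeff_subst hs, finsum_eq_single _ 0]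
      · simp
      · intro d hd
        have : MvPowerSeries.constantCoeff f = 0 := f0
        rw [map_pow, this, zero_pow hd, smul_zero]
    exact h
  refine ⟨?_, ?_⟩
  · have := congrArg PowerSeries.constantCoeff hL
    simpa [E0] using this
  · set E' := PowerSeries.map (algebraMap ℚ ℂ) E with hE'
    have h1 : PowerSeries.X * PowerSeries.derivative ℂ E' =
        E' * PowerSeries.mk fun m => if m = 0 then 0 else (N m : ℂ) := by
      rw [hE', exl_map, dE, map_mul, mul_left_comm]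
      congr 1
      ext n
      cases n with
      | zero => simp
      | succ n =>
        rw [PowerSeries.coeff_succ_X_mul, PowerSeries.coeff_map, PowerSeries.coeff_derivative,
          PowerSeries.coeff_mk, PowerSeries.coeff_mk, if_neg (Nat.succ_ne_zero n)]
        have : ((n : ℚ) + 1) ≠ 0 := by positivity
        rw [show ((N (n + 1) : ℚ) / ((n + 1 : ℕ) : ℚ) * ((n : ℚ) + 1)) = (N (n + 1) : ℚ) by
          push_cast; field_simp]
        simp
    have h2 := nwr_mul (nwr_one 1) (nwr_one (q : ℂ))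
    rw [nwr_iff, nwr_coe] at h2 ⊢
    set P : PowerSeries ℂ := (((1 - C 1 * X) * (1 - C (q : ℂ) * X) : ℂ[X]) : PowerSeries ℂ) with hP
    have h3 : ((L.map (algebraMap ℚ ℂ) : ℂ[X]) : PowerSeries ℂ) = P * E' := by
      rw [Polynomial.polynomial_map_coe, hL, map_mul, hP, ← hE', Polynomial.coe_mul,
        Polynomial.coe_sub, Polynomial.coe_sub, Polynomial.coe_mul, Polynomial.coe_mul,
        Polynomial.coe_C, Polynomial.coe_C]
      simp
    have e : (PowerSeries.mk fun m => if m = 0 then 0 else (N m : ℂ) - 1 - (q : ℂ) ^ m) =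
        (PowerSeries.mk fun m => if m = 0 then 0 else (N m : ℂ)) +
          PowerSeries.mk fun m => if m = 0 then 0 else
            ((fun m : ℕ => -(1 : ℂ) ^ m) + fun m : ℕ => -(q : ℂ) ^ m) m := by
      ext n
      by_cases hn : n = 0 <;> simp [hn]
      ring
    rw [h3, e, Derivation.leibniz, smul_eq_mul, smul_eq_mul]
    linear_combination P * h1 + E' * h2

end

section

set_option linter.unusedSectionVars false
open Polynomial Finset
open Pool.Agent.P.MP_6f117a_ag (Place FF)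
open Pool.Agent.P.MP_ab3ecb_nt.Inv (Dv deg SA LS)
open Pool.Agent.P.MP_9344a7_nt.R
open Pool.Agent.P.MP_9344a7_nt.CoreC (cc)
open Pool.Agent.P.MP_9344a7_nt.Hy
open scoped Classical ComplexConjugate

lemma fld_pow {A : Type} [AddCommGroup A] [Fintype A] (χ : AddChar A ℂ) (a : A) :
    χ a ^ Nat.card (Set.range χ) = 1 := by
  let f : Multiplicative A →* ℂˣ := χ.toMonoidHom.toHomUnits
  have e : Nat.card (Set.range χ) = Nat.card f.range := by
    refine (Nat.card_congr (Equiv.ofBijective (fun x : f.range => (⟨(x.1 : ℂ), by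
      obtain ⟨_, b, rfl⟩ := x
      exact ⟨b.toAdd, rfl⟩⟩ : Set.range χ)) ⟨fun x y h => ?_, ?_⟩)).symm
    · exact Subtype.ext (Units.ext (congrArg Subtype.val h))
    · rintro ⟨_, b, rfl⟩
      exact ⟨⟨f (Multiplicative.ofAdd b), _, rfl⟩, rfl⟩
  have h := pow_card_eq_one' (x := (⟨f (Multiplicative.ofAdd a), _, rfl⟩ : f.range))
  rw [e]
  simpa [f] using congrArg (fun x : f.range => (x.1 : ℂ)) h

lemma fld_deg (K : IntermediateField ℚ ℂ) [FiniteDimensional ℚ K] {α : ℂ} (h : IsIntegral K α) :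
    (minpoly ℚ α).natDegree ≤ Module.finrank ℚ K * (minpoly K α).natDegree := by
  have := IntermediateField.adjoin.finiteDimensional h
  have := Module.Finite.trans (R := ℚ) K (IntermediateField.adjoin K {α})
  rw [← IntermediateField.adjoin.finrank h, Module.finrank_mul_finrank]
  have e := minpoly.algebraMap_eq (A := ℚ) (algebraMap (IntermediateField.adjoin K {α}) ℂ).injective
    (IntermediateField.AdjoinSimple.gen K α)
  rw [IntermediateField.AdjoinSimple.algebraMap_gen] at e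
  rw [e]
  exact minpoly.natDegree_le _

theorem p_FLD :
    S_FLD := by
  intro A _ _ χ G D α h0 hD hα
  have hd : 0 < Nat.card (Set.range χ) := Nat.card_pos
  have hp := fld_pow χ
  generalize Nat.card (Set.range χ) = d at hd hp ⊢
  have : NeZero d := ⟨hd.ne'⟩
  have hz := Complex.isPrimitiveRoot_exp d hd.ne'
  generalize Complex.exp (2 * Real.pi * Complex.I / d) = z at hz
  have hi : IsIntegral ℚ z := (hz.isIntegral hd).tower_top
  set K := IntermediateField.adjoin ℚ {z}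
  have := IntermediateField.adjoin.finiteDimensional hi
  have hK : Module.finrank ℚ K = d.totient := by
    rw [IntermediateField.adjoin.finrank hi, ← cyclotomic_eq_minpoly_rat hz hd,
      natDegree_cyclotomic]
  have hm : ∀ x, ev χ x ∈ K.toSubring := fun x => by
    rw [ev_eq]
    refine sum_mem fun a _ => mul_mem (intCast_mem _ _) ?_
    obtain ⟨i, -, e⟩ := hz.eq_pow_of_pow_eq_one (hp a)
    rw [← e]
    exact pow_mem (IntermediateField.mem_adjoin_simple_self ℚ z) i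
  let φ : ZA A →+* K := (ev χ).codRestrict K.toSubring hm
  have e : ∀ P : (ZA A)[X], P.map (ev χ) = (P.map φ).map (algebraMap K ℂ) := fun P => by
    rw [Polynomial.map_map]
    rfl
  have hr : ∀ P : (ZA A)[X], (P.map (ev χ)).eval α = 0 → aeval α (P.map φ) = 0 := fun P h => by
    rwa [e, eval_map_algebraMap] at h
  have hG : G.map φ ≠ 0 := fun h => by
    have := congrArg (coeff · 0) h
    simp [h0] at this
  have hα' : IsIntegral K α := IsAlgebraic.isIntegral ⟨_, hG, hr G hα⟩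
  have h1 := fld_deg K hα'
  have h2 := minpoly.dvd K α (hr G hα)
  have h3 : (G.map φ).natDegree ≤ D := natDegree_map_le.trans hD
  rw [hK] at h1
  refine ⟨h1.trans (Nat.mul_le_mul_left _ ((natDegree_le_of_dvd h2 hG).trans h3)),
    fun h G' hG' => ?_⟩
  have h4 := Nat.le_of_mul_le_mul_left (h.trans h1) (Nat.totient_pos.2 hd)
  rw [e, e]
  exact Polynomial.map_dvd _ ((associated_of_dvd_of_natDegree_le h2 hG (h3.trans h4)).symm.dvd.trans
    (minpoly.dvd K α (hr G' hG')))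

end

section

set_option linter.unusedSectionVars false
open Polynomial Finset
open Pool.Agent.P.MP_6f117a_ag (Place FF)
open Pool.Agent.P.MP_ab3ecb_nt.Inv (Dv deg SA LS)
open Pool.Agent.P.MP_9344a7_nt.R
open Pool.Agent.P.MP_9344a7_nt.CoreC (cc)
open Pool.Agent.P.MP_9344a7_nt.Hy
open scoped Classical ComplexConjugate

theorem ord_dvd (A : Type) [AddCommGroup A] [Fintype A] (χ : AddChar A ℂ) :
    Nat.card (Set.range χ) ∣ Nat.card A := by
  let f : Multiplicative A →* ℂˣ := χ.toMonoidHom.toHomUnits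
  have h1 : Nat.card f.range ∣ Nat.card (Multiplicative A) := Subgroup.card_range_dvd f
  have h2 : Nat.card f.range = Nat.card (Set.range χ) := by
    refine Nat.card_congr (Equiv.ofBijective
      (fun x : f.range => (⟨((x : ℂˣ) : ℂ), by
        obtain ⟨a, ha⟩ := x.2
        exact ⟨a.toAdd, by rw [← ha]; rfl⟩⟩ : Set.range χ)) ⟨?_, ?_⟩)
    · intro x y h
      exact Subtype.ext (Units.ext (congrArg Subtype.val h))
    · rintro ⟨z, a, rfl⟩
      exact ⟨⟨f (Multiplicative.ofAdd a), _, rfl⟩, rfl⟩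
  rw [← h2]
  exact h1

theorem p_ORD :
    S_ORD := by
  intro A _ _ χ h4 hle
  have hd := ord_dvd A χ
  have hpos : 0 < Nat.card A := Nat.card_pos
  have ht := Nat.totient_dvd_of_dvd hd
  have heq : (Nat.card (Set.range χ)).totient = (Nat.card A).totient :=
    le_antisymm (Nat.le_of_dvd (Nat.totient_pos.2 hpos) ht) hle
  have hc : Nat.card (Set.range χ) = Nat.card A := by
    rcases Nat.eq_or_eq_of_totient_eq_totient hd heq with h | h
    · exact h
    · exfalso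
      rcases Nat.even_or_odd (Nat.card (Set.range χ)) with he | ho
      · have h2 := Nat.totient_two_mul_of_even he
        rw [h, ← heq] at h2
        have := Nat.totient_pos.2 hpos
        omega
      · obtain ⟨k, hk⟩ := ho
        omega
  have hs : Function.Surjective (Set.rangeFactorization χ) := Set.rangeFactorization_surjective
  have hb : Function.Bijective (Set.rangeFactorization χ) :=
    (Nat.bijective_iff_surjective_and_card _).2 ⟨hs, hc.symm⟩
  intro a b hab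
  exact hb.1 (Subtype.ext hab)

end

section

set_option linter.unusedSectionVars false
open Polynomial Finset
open Pool.Agent.P.MP_6f117a_ag (Place FF)
open Pool.Agent.P.MP_ab3ecb_nt.Inv (Dv deg SA LS)
open Pool.Agent.P.MP_9344a7_nt.R
open Pool.Agent.P.MP_9344a7_nt.CoreC (cc)
open Pool.Agent.P.MP_9344a7_nt.Hy
open scoped Classical ComplexConjugate

lemma mt2_cc {A : Type} [AddCommGroup A] [Fintype A] (b : A) (h : b ≠ 0) : cc b ≤ 1 / 2 := by
  have h1 : addOrderOf b ≠ 1 := fun e => h (AddMonoid.addOrderOf_eq_one_iff.1 e)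
  have h0 := Nat.totient_pos.2 (addOrderOf_pos b)
  unfold cc
  generalize addOrderOf b = d at *
  by_cases h2 : d = 2
  · rw [h2, ArithmeticFunction.moebius_apply_prime Nat.prime_two]
    norm_num
  have h3 : d.totient ≠ 1 := fun e => (Nat.totient_eq_one_iff.1 e).elim h1 h2
  have h4 : (2 : ℝ) ≤ d.totient := by exact_mod_cast (by omega : 2 ≤ d.totient)
  have h5 : (ArithmeticFunction.moebius d : ℝ) ≤ 1 := by
    exact_mod_cast (abs_le.1 (ArithmeticFunction.abs_moebius_le_one (n := d))).2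
  rw [div_le_iff₀ (by linarith)]
  linarith

theorem p_MT2 (hhSML : Hy.S_SML) (hhAV : Hy.S_AV) (hhKER : Hy.S_KER) (hhCV : Hy.S_CV) :
    S_MT2 := by
  intro c n C0
  obtain ⟨K, K1, K2⟩ : ∃ K : ℕ, 8 ≤ K ∧ 8 * C0 ≤ K := ⟨8 * (C0 + 1), by omega, by omega⟩
  obtain ⟨q0, hq0⟩ := hhSML c (n + 1) (K ^ 3) 2
  refine ⟨q0, fun q A _ _ S S' a1 hB d d' a5 a6 χ hχ he => ?_⟩
  have b1 := hq0 q _ a1 Nat.card_pos.ne' hB.le
  obtain ⟨-, -, b2, -⟩ := hhAV A hB.cyc
  have b3 : 0 < om A := by unfold om; positivity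
  have b4 := fun (w : A → ℝ) (W : ℝ) (h0 : 0 ≤ W) (hw : ∀ b, w b ≤ W) =>
    CoreC.top_est d' S h0 hw (Nat.mul_pos (by omega : 0 < K) b3)
  have b6 := (hhCV A hB.cyc).1 (ind S) (ind S') fun ψ hψ => by
    have := ((hhKER A χ hχ).1 ψ hψ).1 (ind S - ind S') (by rw [map_sub, he, sub_self])
    rwa [map_sub, sub_eq_zero] at this
  have c1 : (K : ℝ) ^ 3 * (om A : ℝ) ^ 2 ≤ q := by exact_mod_cast b1
  have c2 : (1 : ℝ) ≤ om A := by exact_mod_cast b3
  push_cast at b4
  generalize (om A : ℝ) = ρ at *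
  have c3 : (8 : ℝ) ≤ K := by exact_mod_cast K1
  have c4 : (8 : ℝ) * C0 ≤ K := by exact_mod_cast K2
  have c5 : (#S : ℝ) ≤ 2 * q := by exact_mod_cast a6
  obtain ⟨E, c7, c8, c9, c10⟩ : ∃ E : ℝ, K * E ≤ q ∧ (K * ρ) ^ 2 ≤ E ∧ 64 * ρ ≤ E ∧
      K * ((#S + (K * ρ) ^ 2) / (K * ρ) * ρ) ≤ #S + E := by
    refine ⟨(K * ρ) ^ 2, by linarith, le_rfl,
      by nlinarith [mul_le_mul_of_nonneg_right c3 (by linarith : 0 ≤ ρ)], le_of_eq ?_⟩
    field_simp
  have c11 : 0 ≤ (#S + (K * ρ) ^ 2) / (K * ρ) := by positivity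
  generalize (#S + (K * ρ) ^ 2) / (K * ρ) = L at *
  have e1 := (abs_le.1 (CoreC.self_est d cc)).1
  have e0 : ∑ x ∈ S, ∑ s ∈ S, cc (x - s) = ∑ x ∈ S, ∑ s ∈ S', cc (x - s) :=
    sum_congr rfl fun x _ => by rw [← mat_cv, b6, mat_cv]
  rw [CoreC.cc_zero, e0, CoreC.sum_uu] at e1
  have e2 := b4 (fun b => if b = 0 then 1 / 2 else cc b) (1 / 2) (by norm_num) fun b => by
    split_ifs with h
    · exact le_rfl
    · exact mt2_cc b h
  have e3 : ∑ b : A, |if b = 0 then 1 / 2 else cc b| ≤ ρ :=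
    (sum_le_sum fun b _ => by
      split_ifs with h
      · rw [h, CoreC.cc_zero]; norm_num [abs_of_pos]
      · exact le_rfl).trans b2
  have e4 : ∑ b, CoreC.uu S' S b * cc b = 1 / 2 * CoreC.uu S' S 0 +
      ∑ b, CoreC.uu S' S b * if b = 0 then 1 / 2 else cc b := by
    rw [← add_sum_erase _ _ (mem_univ 0), ← add_sum_erase _ _ (mem_univ 0), CoreC.cc_zero,
      if_pos rfl, sum_congr rfl (g := fun b => (CoreC.uu S' S b * if b = 0 then 1 / 2
        else cc b)) fun b hb => by rw [if_neg (ne_of_mem_erase hb)]]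
    ring
  have e5 : (#(S \ S') : ℝ) + CoreC.uu S' S 0 = #S := by
    simp only [CoreC.uu, sub_zero, filter_mem_eq_inter]
    exact_mod_cast card_sdiff_add_card_inter S S'
  have e6 := mul_le_mul_of_nonneg_left e3 c11
  have e7 : (#(S \ S') : ℝ) ≤ 2 * (E + L * ρ) := by linarith
  have e8 : (K : ℝ) * #(S \ S') ≤ 8 * q := by
    nlinarith [mul_le_mul_of_nonneg_left e7 (by linarith : (0 : ℝ) ≤ K)]
  have e9 : (C0 : ℝ) * #(S \ S') ≤ q := by
    nlinarith [mul_le_mul_of_nonneg_right c4 (Nat.cast_nonneg #(S \ S'))]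
  exact_mod_cast e9

end

section

set_option linter.unusedSectionVars false
open Polynomial Finset
open Pool.Agent.P.MP_6f117a_ag (Place FF)
open Pool.Agent.P.MP_ab3ecb_nt.Inv (Dv deg SA LS)
open Pool.Agent.P.MP_9344a7_nt.R
open Pool.Agent.P.MP_9344a7_nt.CoreC (cc)
open Pool.Agent.P.MP_9344a7_nt.Hy
open scoped Classical ComplexConjugate

lemma ira_deg (hLB : Hy.S_LB) {q n : ℕ} {A : Type} [AddCommGroup A] [Fintype A] (Λ : LD q n A)
    (hq : 0 < q) : (∏ χ ∈ univ.erase 0, Λ.L χ).natDegree = (Nat.card A - 1) * (2 * n) := by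
  have a := fun χ (hχ : χ ∈ univ.erase (0 : AddChar A ℂ)) => hLB q n A Λ hq χ (ne_of_mem_erase hχ)
  rw [natDegree_prod _ _ fun χ hχ e => by simpa [e] using (a χ hχ).1,
    sum_const_nat fun χ hχ => (a χ hχ).2.1, card_erase_of_mem (mem_univ _), card_univ,
    AddChar.card_eq, Nat.card_eq_fintype_card]

lemma ira_LZ {q n : ℕ} {A : Type} [AddCommGroup A] (Λ : LD q n A) :
    Λ.LZ.coeff 0 = 1 ∧ Λ.LZ.natDegree ≤ 2 * n :=
  ⟨by rw [Λ.coeff_LZ, if_pos (Nat.zero_le _), Λ.w0], natDegree_le_iff_coeff_eq_zero.2 fun j hj => by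
    rw [Λ.coeff_LZ, if_neg hj.not_ge]⟩

lemma ira_inj (hFLD : S_FLD) (hORD : S_ORD) {q n : ℕ} {A : Type} [AddCommGroup A] [Fintype A]
    (Λ : LD q n A) (hn : 0 < n) {α : ℂ} (h4 : Nat.card A % 4 ≠ 2)
    (h0 : (∏ χ ∈ univ.erase 0, Λ.L χ).eval α = 0)
    (hd : (Nat.card A).totient * (2 * n) ≤ (minpoly ℚ α).natDegree) :
    ∃ χ : AddChar A ℂ, χ ≠ 0 ∧ (Λ.L χ).eval α = 0 ∧ Function.Injective χ := by
  rw [eval_prod, prod_eq_zero_iff] at h0
  obtain ⟨χ, h1, h2⟩ := h0
  exact ⟨χ, ne_of_mem_erase h1, h2, hORD A χ h4 (Nat.le_of_mul_le_mul_right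
    (hd.trans (hFLD A χ Λ.LZ (2 * n) α (ira_LZ Λ).1 (ira_LZ Λ).2 h2).1) (by omega))⟩

theorem p_IRA (hFLD : S_FLD) (hORD : S_ORD) (hMT2 : S_MT2) (hhKER : Hy.S_KER) (hhLB : Hy.S_LB) (hhTP : Hy.S_TP) :
    S_IRA := by
  intro c n C0 hn
  obtain ⟨q1, H1⟩ := hMT2 c n C0
  refine ⟨q1 + 4, fun q A A' _ _ _ _ Λ Λ' α hq B h4 hS e h0 hd => ?_⟩
  have q0 : 0 < q := by omega
  have hc : Nat.card A' = Nat.card A := by
    have a := ira_deg hhLB Λ q0
    rw [e, ira_deg hhLB Λ' q0] at a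
    have a1 := Nat.eq_of_mul_eq_mul_right (by omega) a
    have := Nat.card_pos (α := A)
    have := Nat.card_pos (α := A')
    omega
  obtain ⟨χ, x0, hα, i0⟩ := ira_inj hFLD hORD Λ hn h4 h0 hd
  obtain ⟨χ', -, hα', i1⟩ := ira_inj hFLD hORD Λ' hn (hc ▸ h4) (e ▸ h0) (hc ▸ hd)
  have hχ := mem_Fa.2 i0
  obtain ⟨j, rfl⟩ := (hhKER A χ hχ).2 A' χ' fun a => by
    rw [← AddChar.map_nsmul_eq_pow, ← hc, card_nsmul_eq_zero', AddChar.map_zero_eq_one]
  let Θ : A' ≃+ A := .ofBijective j ((Nat.bijective_iff_injective_and_card _).2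
    ⟨.of_comp (f := χ) i1, hc⟩)
  obtain ⟨Λ1, t1, t2, t3, -⟩ := hhTP q n A' A Λ' Θ
  have hα1 : (Λ1.L χ).eval α = 0 := by rw [t2]; exact hα'
  have l0 := hhLB q n A Λ q0 χ x0
  have l1 := hhLB q n A Λ1 q0 χ x0
  have eq : Λ.L χ = Λ1.L χ := eq_of_dvd
    ((hFLD A χ Λ.LZ (2 * n) α (ira_LZ Λ).1 (ira_LZ Λ).2 hα).2
      (by rwa [Nat.card_range_of_injective i0]) Λ1.LZ hα1) l0.1 l1.1 (l1.2.1.trans l0.2.1.symm).le
  have e1 := congrArg (coeff · 1) eq
  simp only [LD.coeff_L _ χ (show 1 ≤ 2 * n by omega), LD.w1] at e1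
  have hi := Λ.hi
  refine ⟨Θ.symm, (H1 q A Λ.S Λ1.S (by omega) B Λ.sid Λ1.sid (hS.trans t3.symm) (by omega)
    χ hχ e1).trans_eq' ?_⟩
  congr 2
  ext s
  rw [mem_sdiff, mem_filter, t1.S, mem_image]
  exact and_congr_right' (not_congr ⟨fun ⟨a, a1, a2⟩ => by rwa [← a2, Θ.symm_apply_apply],
    fun a => ⟨_, a, Θ.apply_symm_apply s⟩⟩)

end

section

set_option linter.unusedSectionVars false
open Polynomial Finset
open Pool.Agent.P.MP_6f117a_ag (Place FF)
open Pool.Agent.P.MP_ab3ecb_nt.Inv (Dv deg SA LS)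
open Pool.Agent.P.MP_9344a7_nt.R
open Pool.Agent.P.MP_9344a7_nt.CoreC (cc)
open Pool.Agent.P.MP_9344a7_nt.Hy
open scoped Classical ComplexConjugate

theorem p_TWO (hPLO : S_PLO) (hPHI : S_PHI) (hHB : S_HB) (hhLD : Hy.S_LD) (hhPH : Hy.S_PH) (hhPCK : Hy.S_PCK) :
    S_TWO := by
  intro n hn
  obtain ⟨p1, H1⟩ := hPLO (n + 1) 3 (by omega)
  obtain ⟨p2, H2⟩ := hPHI (n + 1) 2 (by omega)
  obtain ⟨p3, H3⟩ := hPHI (n + 1) 1 (by omega)
  refine ⟨p1 + p2 + p3, fun F E E' _ _ _ _ _ _ C D e e' hp g1 g2 hN d d' hH => ?_⟩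
  obtain ⟨i1, σ, K, h, g, -, -, a1, a2, a3, a4, a5, -⟩ := hhPCK F E C (n + 1) (by omega) g1
  obtain ⟨i2, σ', K', h', g', -, -, b1, b2, b3, -⟩ := hhPCK F E' D (n + 1) (by omega) g2
  have e1 := (a1 _).1 e.2
  have e1' := (b1 _).1 e'.2
  rw [hasDeg] at d d'
  have := h.fin
  have := h'.fin
  have j1 := Fintype.ofFinite (J σ)
  have j2 := Fintype.ofFinite (J σ')
  have hN' : ∀ m, m ≠ 0 → #(fx σ m) = #(fx σ' m) := fun m hm => by
    rw [← a2, ← b2, hN m (Nat.pos_of_ne_zero hm)]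
  have lo := H1 F E K σ (by omega) g h 1 one_ne_zero
  have hi := H2 F E K e σ (by omega) g h e1 d 1 one_ne_zero
  have u := hN' 1 one_ne_zero
  rw [pow_one] at lo hi
  obtain ⟨Λ, l1, -⟩ := hhLD _ E K e n σ _ g hn h e1 d (by omega) (by omega)
  obtain ⟨Λ', l1', -⟩ := hhLD _ E' K' e' n σ' _ g' hn h' e1' d' (by omega) (by omega)
  have q2 := h.fr.1
  have s1 := l1.card
  have s2 := l1'.card
  have hb := (hHB _ E K e (n + 1) σ _ g h e1 d fun m hm => by
    have := H3 F E K e σ (by omega) g h e1 d m hm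
    omega).2
  refine ⟨i1, i2, σ, σ', K, K', j1, j2, Λ, Λ', h, h', g, g', l1, l1', a1, b1, a2, a3 _, a4,
    fun cy N pr => ⟨a5 cy, ?_, hb, a4 ▸ pr⟩, by omega, ?_⟩
  · obtain ⟨a, -, b, -, ab⟩ := one_lt_card.1 (show 1 < #Λ.S by omega)
    exact ⟨a, b, ab⟩
  · exact Polynomial.ext ((hhPH _ E K e n σ _ Λ g hn h l1).W_eq
      (hhPH _ E' K' e' n σ' _ Λ' g' hn h' l1') (by
        simp only [coeff_zero_eq_eval_zero, eval_prod]
        simp only [← coeff_zero_eq_eval_zero, LD.coeff_L _ _ (Nat.zero_le _), LD.w0, map_one,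
          prod_const_one]) fun m hm => by
        rw [← a3, ← b3, hH m (Nat.pos_of_ne_zero hm), hN' m hm])

end

section

set_option linter.unusedSectionVars false
open Polynomial Finset
open Pool.Agent.P.MP_6f117a_ag (Place FF)
open Pool.Agent.P.MP_ab3ecb_nt.Inv (Dv deg SA LS)
open Pool.Agent.P.MP_9344a7_nt.R
open Pool.Agent.P.MP_9344a7_nt.CoreC (cc)
open Pool.Agent.P.MP_9344a7_nt.Hy
open scoped Classical ComplexConjugate

theorem p_FIN (hgTOR : Gt.S_TOR) :
    S_FIN := by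
  intro n hn
  obtain ⟨C0, p0, H⟩ := hgTOR (n + 1) (by omega)
  refine ⟨C0, p0, fun F E E' _ _ _ _ _ _ _ _ C D e e' σ σ' K K' _ _ Λ Λ' hp g1 g2 hN T θ t t2 => ?_⟩
  have e1 := T.il.e1
  have d := T.il.e2
  obtain ⟨ψ, hψ⟩ := exists_psi T.pf e1 d T.pf' (e' := e'.1 + t.1)
    (by rw [map_add, T.il'.e1, (mem_J.1 t.2).1])
    (by rw [map_add, T.il'.e2, (mem_J.1 t.2).2, add_zero]) θ
  obtain ⟨B, t2, t3⟩ : ∃ B : Finset (J σ), C0 * #B ≤ Fintype.card F ∧
      ∀ s ∈ Λ.S, θ s + t ∉ Λ'.S → s ∈ B := ⟨_, t2, fun s a b => by simp [a, b]⟩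
  refine H F E E' C D hp g1 g2 hN ψ
    ((fx σ 1).filter fun P => cls P - e.1 ∈ B.image Subtype.val) ?_ fun x P hP hx => ?_
  · rw [mul_comm]
    exact (Nat.mul_le_mul_left _ ((card_le_card_of_injOn (fun P => cls P - e.1)
      (fun P hP => (mem_filter.1 hP).2) fun P _ P' _ e =>
        T.gb.inj _ _ (sub_left_injective e)).trans card_image_le)).trans t2
  · have p0 : ph σ (cls P) = cls P := hx ▸ (T.pf _).1 x.2
    have p1 : σ.pl P = P := T.gb.inj _ _ (by rw [← ph_cls, p0])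
    let s : J σ := ⟨cls P - e.1, mem_J.2 ⟨by rw [map_sub, e1, p0], by simp [d]⟩⟩
    have s3 : θ s + t ∈ Λ'.S := by_contra fun hs => hP (mem_filter.2
      ⟨(T.fb.fx 1 one_ne_zero P).2 p1,
        mem_image_of_mem _ (t3 s (T.il.S ▸ (T.fb.SS _ s).2 ⟨P, p1, rfl⟩) hs)⟩)
    obtain ⟨Q, -, q2⟩ := (T.fb'.SS _ _).1 (T.il'.S ▸ s3)
    refine ⟨Q, ?_⟩
    rw [hψ x s 1 (by simp [s, hx]), one_zsmul, add_comm e'.1, ← add_assoc, ← AddSubgroup.coe_add,
      q2, sub_add_cancel]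

end

section

set_option linter.unusedSectionVars false
open Polynomial Finset
open Pool.Agent.P.MP_6f117a_ag (Place FF)
open Pool.Agent.P.MP_ab3ecb_nt.Inv (Dv deg SA LS)
open Pool.Agent.P.MP_9344a7_nt.R
open Pool.Agent.P.MP_9344a7_nt.CoreC (cc)
open Pool.Agent.P.MP_9344a7_nt.Hy
open scoped Classical ComplexConjugate

theorem p_IRR (hZT : S_ZT) (hEXL : S_EXL) (hIRA : S_IRA) (hTWO : S_TWO) (hFIN : S_FIN) (hhPH : Hy.S_PH) :
    S_IRR := by
  intro g hg
  obtain ⟨n, rfl⟩ : ∃ n, g = n + 1 := ⟨g - 1, by omega⟩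
  obtain ⟨p1, H1⟩ := hTWO n (by omega)
  obtain ⟨C0, p2, H2⟩ := hFIN n (by omega)
  obtain ⟨q0, H3⟩ := hIRA (2 ^ (n + 1)) n C0 (by omega)
  refine ⟨p1 + p2 + q0 + 3, fun F E E' _ _ _ _ _ _ C D e e' L M hp g1 g2 cy h4 d d' hL hM hML hd
    hN hH => ?_⟩
  obtain ⟨_, _, σ, σ', K, K', _, _, Λ, Λ', T⟩ := H1 F E E' C D e e' (by omega) g1 g2 hN d d' hH
  have hq : ringChar F ≤ Fintype.card F :=
    Nat.le_of_dvd Fintype.card_pos ((ringChar.spec F _).1 (FiniteField.cast_card_eq_zero F))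
  obtain ⟨α, hα⟩ := IsAlgClosed.exists_aeval_eq_zero ℂ M (degree_pos_of_irreducible hM).ne'
  have hm : (minpoly ℚ α).natDegree = M.natDegree := by
    rw [← minpoly.eq_of_irreducible hM hα, natDegree_mul_C (by simpa using hM.ne_zero)]
  obtain ⟨l0, l1⟩ := hEXL _ _ L hL
  obtain ⟨Z, z0, z1, z2⟩ := hZT _ E K e.1 (n + 1) σ _ T.gb (by omega) T.fb T.il.e1 T.il.e2
  have key : L.map (algebraMap ℚ ℂ) = Z.map (algebraMap ℚ ℂ) * ∏ χ ∈ univ.erase 0, Λ.L χ :=
    Polynomial.ext (l1.W_eq (nwr_mul z2 (hhPH _ E K e.1 n σ _ Λ T.gb (by omega) T.fb T.il)) (by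
      rw [mul_coeff_zero, coeff_map, coeff_map, l0, z0]
      simp only [coeff_zero_eq_eval_zero, eval_prod]
      simp only [← coeff_zero_eq_eval_zero, LD.coeff_L _ _ (Nat.zero_le _), LD.w0, map_one,
        prod_const_one, mul_one]) fun m _ => by
      rw [Pi.add_apply, T.ptsH]
      ring)
  have h0 := congrArg (eval α) key
  rw [eval_map_algebraMap, aeval_eq_zero_of_dvd_aeval_eq_zero hML hα, eval_mul,
    eval_map_algebraMap] at h0
  rw [T.h, show 2 * (n + 1) - 2 = 2 * n by omega] at hd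
  have h1 : aeval α Z ≠ 0 := fun h => by
    have a1 := natDegree_le_of_dvd (minpoly.dvd ℚ α h) fun e => by simp [e] at z0
    have a2 := Λ.lo
    have a3 := (card_le_univ Λ.S).trans_eq Nat.card_eq_fintype_card.symm
    have a4 := Nat.totient_eq_one_iff (n := Nat.card (J σ))
    have a5 := Nat.totient_pos.2 (show 0 < Nat.card (J σ) by omega)
    have a6 := Nat.mul_le_mul_left (2 * n) (show 2 ≤ (Nat.card (J σ)).totient by omega)
    omega
  obtain ⟨θ, hθ⟩ := H3 _ (J σ) (J σ') Λ Λ' α (by omega) (T.big cy 0 fun l hl _ => hl.pos)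
    (T.h ▸ h4) T.card T.eq ((mul_eq_zero.1 h0.symm).resolve_left h1) (by rw [hm, hd, mul_comm])
  exact H2 F E E' C D e e' σ σ' K K' Λ Λ' (by omega) g1 g2 (hN 1 one_pos) T θ 0
    (by convert hθ; rw [add_zero])

end

end Pool.Agent.P.MP_9344a7_nt.Nh
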