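import Pool.Agent.P.MP_9344a7_nt.Hy.All
import Pool.Agent.P.MP_9344a7_nt.Gt.All
import Pool.Agent.P.MP_9344a7_nt.Nh.M1
import Pool.Agent.P.MP_9344a7_nt.Nh.M2

/-! The assembly of the steps. -/

namespace Pool.Agent.P.MP_9344a7_nt.Nh

theorem a_CVB : S_CVB := p_CVB
theorem a_PLO : S_PLO := p_PLO a_CVB Gt.a_BDP Gt.a_MDL
theorem a_ZT : S_ZT := p_ZT
theorem a_DIR : S_DIR := p_DIR
theorem a_PHI : S_PHI := p_PHI a_PLO a_ZT a_DIR Hy.a_NWR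
theorem a_HB : S_HB := p_HB
theorem a_EXL : S_EXL := p_EXL
theorem a_FLD : S_FLD := p_FLD
theorem a_ORD : S_ORD := p_ORD
theorem a_MT2 : S_MT2 := p_MT2 Hy.a_SML Hy.a_AV Hy.a_KER Hy.a_CV
theorem a_IRA : S_IRA := p_IRA a_FLD a_ORD a_MT2 Hy.a_KER Hy.a_LB Hy.a_TP
theorem a_TWO : S_TWO := p_TWO a_PLO a_PHI a_HB Hy.a_LD Hy.a_PH Hy.a_PCK
theorem a_FIN : S_FIN := p_FIN Gt.a_TOR
theorem a_IRR : S_IRR := p_IRR a_ZT a_EXL a_IRA a_TWO a_FIN Hy.a_PH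

end Pool.Agent.P.MP_9344a7_nt.Nh
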