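import Pool.Agent.P.MP_9344a7_nt.Stmt

/-! The L-polynomial attached to a sequence of point counts. -/

namespace Pool.Agent.P.MP_9344a7_nt

/-- `L = (1 - T) (1 - q T) exp (∑ N m T ^ m / m)`. -/
def IsLf (q : ℕ) (N : ℕ → ℕ) (L : Polynomial ℚ) : Prop :=
  (L : PowerSeries ℚ) = (1 - PowerSeries.X) * (1 - (q : PowerSeries ℚ) * PowerSeries.X) *
    (PowerSeries.exp ℚ).subst (PowerSeries.mk fun m => (N m : ℚ) / m)

end Pool.Agent.P.MP_9344a7_nt
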