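import Pool.Agent.P.MP_9344a7_nt.Hy.Iface
import Pool.Agent.P.MP_9344a7_nt.Gt.Iface
import Pool.Agent.P.MP_9344a7_nt.Nh.Base

/-!
Point counts on an arbitrary curve, and the case of an irreducible factor of maximal degree.
-/

namespace Pool.Agent.P.MP_9344a7_nt.Nh

open Polynomial Finset
open Pool.Agent.P.MP_6f117a_ag (Place FF)
open Pool.Agent.P.MP_ab3ecb_nt.Inv (Dv deg SA LS)
open Pool.Agent.P.MP_9344a7_nt.R
open Pool.Agent.P.MP_9344a7_nt.CoreC (cc)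
open Pool.Agent.P.MP_9344a7_nt.Hy
open scoped Classical ComplexConjugate

/-! ### The number of points -/

-- deps:
def S_CVB : Prop := ∀ (F E : Type) [Field F] [Fintype F] [Field E] [Algebra (AlgebraicClosure F) E]
  [FF (AlgebraicClosure F) E] (K : Pic (AlgebraicClosure F) E) (g : ℕ)
  (σ : SA (AlgebraicClosure F) E), 0 < g → GB K g → FB σ (Fintype.card F) →
    ∃ W : Dv (AlgebraicClosure F) E, (W : Pic (AlgebraicClosure F) E) = K ∧ 0 ≤ W ∧ Gt.Can g W ∧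
      σ.dm W = W

-- imports: Pool.Agent.P.MP_9344a7_nt.Lwm Pool.Agent.P.MP_9344a7_nt.Gt.M8
-- deps: CVB Gt.BDP Gt.MDL
def S_PLO : Prop := ∀ g M : ℕ, 2 ≤ g → ∃ p0 : ℕ, ∀ (F E : Type) [Field F] [Fintype F] [Field E]
  [Algebra (AlgebraicClosure F) E] [FF (AlgebraicClosure F) E] (K : Pic (AlgebraicClosure F) E)
  (σ : SA (AlgebraicClosure F) E), p0 < ringChar F → GB K g → FB σ (Fintype.card F) →
  ∀ m, m ≠ 0 → M * Fintype.card F ^ m ≤ (M + 1) * #(fx σ m)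

-- imports: Pool.Agent.P.MP_9344a7_nt.Hy.M2
-- deps:
def S_ZT : Prop := ∀ (k E : Type) [Field k] [Field E] [Algebra k E] [IsAlgClosed k] [FF k E]
  (K e : Pic k E) (g : ℕ) (σ : SA k E) (Q : ℕ), GB K g → 0 < g → FB σ Q → ph σ e = e → dg e = 1 →
    ∃ Z : ℚ[X], Z.coeff 0 = 1 ∧ Z.natDegree ≤ 2 * g ∧
      Newt (Z.map (algebraMap ℚ ℂ)).coeff fun m => #(fx σ m) - 1 - (Q : ℂ) ^ m

-- deps:
def S_DIR : Prop := ∀ d K : ℕ, ∃ M : ℕ, ∀ (ρ : Multiset ℂ) (x : ℝ), ρ.card ≤ d → 0 < x →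
  (∀ m, m ≠ 0 → M * ((ρ.map (· ^ m)).sum).re ≤ x ^ m) → ∀ r ∈ ρ, K * ‖r‖ ≤ x

-- deps: PLO ZT DIR Hy.NWR
def S_PHI : Prop := ∀ g M : ℕ, 2 ≤ g → ∃ p0 : ℕ, ∀ (F E : Type) [Field F] [Fintype F] [Field E]
  [Algebra (AlgebraicClosure F) E] [FF (AlgebraicClosure F) E] (K e : Pic (AlgebraicClosure F) E)
  (σ : SA (AlgebraicClosure F) E), p0 < ringChar F → GB K g → FB σ (Fintype.card F) →
  ph σ e = e → dg e = 1 → ∀ m, m ≠ 0 → M * #(fx σ m) ≤ (M + 1) * Fintype.card F ^ m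

-- deps:
def S_HB : Prop := ∀ (k E : Type) [Field k] [Field E] [Algebra k E] [IsAlgClosed k] [FF k E]
  (K e : Pic k E) (g : ℕ) (σ : SA k E) (Q : ℕ), GB K g → FB σ Q → ph σ e = e → dg e = 1 →
  (∀ m, m ≠ 0 → #(fx σ m) ≤ 2 * Q ^ m) →
    (∀ j, #(ef σ j) ≤ 2 ^ j * Q ^ j) ∧ Nat.card (J σ) ≤ 2 ^ g * Q ^ g

/-! ### Degrees -/

-- imports: Pool.Agent.P.MP_9344a7_nt.Hy.M2
-- deps:
def S_EXL : Prop := ∀ (q : ℕ) (N : ℕ → ℕ) (L : ℚ[X]), IsLf q N L → L.coeff 0 = 1 ∧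
  Newt (L.map (algebraMap ℚ ℂ)).coeff fun m => N m - 1 - (q : ℂ) ^ m

-- deps:
def S_FLD : Prop := ∀ (A : Type) [AddCommGroup A] [Fintype A] (χ : AddChar A ℂ) (G : (ZA A)[X])
  (D : ℕ) (α : ℂ), G.coeff 0 = 1 → G.natDegree ≤ D → (G.map (ev χ)).eval α = 0 →
  (minpoly ℚ α).natDegree ≤ (Nat.card (Set.range χ)).totient * D ∧
    ((Nat.card (Set.range χ)).totient * D ≤ (minpoly ℚ α).natDegree →
      ∀ G' : (ZA A)[X], (G'.map (ev χ)).eval α = 0 → G.map (ev χ) ∣ G'.map (ev χ))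

-- deps:
def S_ORD : Prop := ∀ (A : Type) [AddCommGroup A] [Fintype A] (χ : AddChar A ℂ),
  Nat.card A % 4 ≠ 2 → (Nat.card A).totient ≤ (Nat.card (Set.range χ)).totient →
    Function.Injective χ

-- imports: Pool.Agent.P.MP_9344a7_nt.Hy.M5
-- deps: Hy.SML Hy.AV Hy.KER Hy.CV
def S_MT2 : Prop := ∀ c n C0 : ℕ, ∃ q0 : ℕ, ∀ (q : ℕ) (A : Type) [AddCommGroup A] [Fintype A]
  (S S' : Finset A), q0 ≤ q → Big A c q n 0 → Sid S → Sid S' → #S = #S' → #S ≤ 2 * q →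
  ∀ χ ∈ Fa A, ev χ (ind S) = ev χ (ind S') → C0 * #(S \ S') ≤ q

-- deps: FLD ORD MT2 Hy.KER Hy.LB Hy.TP
def S_IRA : Prop := ∀ c n C0 : ℕ, 0 < n → ∃ q0 : ℕ, ∀ (q : ℕ) (A A' : Type) [AddCommGroup A]
  [Fintype A] [AddCommGroup A'] [Fintype A'] (Λ : LD q n A) (Λ' : LD q n A') (α : ℂ), q0 ≤ q →
  Big A c q n 0 → Nat.card A % 4 ≠ 2 → #Λ.S = #Λ'.S →
  ∏ χ ∈ univ.erase 0, Λ.L χ = ∏ χ ∈ univ.erase 0, Λ'.L χ →
  (∏ χ ∈ univ.erase 0, Λ.L χ).eval α = 0 →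
  (Nat.card A).totient * (2 * n) ≤ (minpoly ℚ α).natDegree →
    ∃ θ : A ≃+ A', C0 * #{s ∈ Λ.S | θ s ∉ Λ'.S} ≤ q

/-! ### Two curves -/

/-- The data of two curves of genus `n + 1` with the same two L-functions. -/
structure Two {F E E' : Type} [Field F] [Fintype F] [Field E] [Algebra (AlgebraicClosure F) E]
    [Field E'] [Algebra (AlgebraicClosure F) E'] [FF (AlgebraicClosure F) E]
    [FF (AlgebraicClosure F) E'] (C : Curve F E) (D : Curve F E') (e : C.PicF) (e' : D.PicF)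
    (n : ℕ) (σ : SA (AlgebraicClosure F) E) (σ' : SA (AlgebraicClosure F) E')
    (K : Pic (AlgebraicClosure F) E) (K' : Pic (AlgebraicClosure F) E')
    [Fintype (J σ)] [Fintype (J σ')] (Λ : LD (Fintype.card F) n (J σ))
    (Λ' : LD (Fintype.card F) n (J σ')) : Prop where
  fb : FB σ (Fintype.card F)
  fb' : FB σ' (Fintype.card F)
  gb : GB K (n + 1)
  gb' : GB K' (n + 1)
  il : IsL σ K e.1 Λ
  il' : IsL σ' K' e'.1 Λ'
  pf : ∀ x, x ∈ C.PicF ↔ ph σ x = x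
  pf' : ∀ x, x ∈ D.PicF ↔ ph σ' x = x
  pts : ∀ m, C.pts m = #(fx σ m)
  ptsH : ∀ m, C.ptsH e m = nH σ e m
  h : C.h = Nat.card (J σ)
  big : C.CyclicJ → ∀ N, (∀ l, l.Prime → l ∣ C.h → N < l) →
    Big (J σ) (2 ^ (n + 1)) (Fintype.card F) n N
  card : #Λ.S = #Λ'.S
  eq : ∏ χ ∈ univ.erase 0, Λ.L χ = ∏ χ ∈ univ.erase 0, Λ'.L χ

-- imports: Pool.Agent.P.MP_9344a7_nt.Hy.M10
-- deps: PLO PHI HB Hy.LD Hy.PH Hy.PCK
def S_TWO : Prop := ∀ n : ℕ, 0 < n → ∃ p0 : ℕ, ∀ (F E E' : Type) [Field F] [Fintype F] [Field E]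
  [Algebra (AlgebraicClosure F) E] [Field E'] [Algebra (AlgebraicClosure F) E'] (C : Curve F E)
  (D : Curve F E') (e : C.PicF) (e' : D.PicF), p0 < ringChar F →
  Genus (AlgebraicClosure F) E (n + 1 : ℕ) → Genus (AlgebraicClosure F) E' (n + 1 : ℕ) →
  (∀ m, 0 < m → C.pts m = D.pts m) → HasDeg e.1 1 → HasDeg e'.1 1 →
  (∀ m, 0 < m → C.ptsH e m = D.ptsH e' m) →
    ∃ (_ : FF (AlgebraicClosure F) E) (_ : FF (AlgebraicClosure F) E')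
      (σ : SA (AlgebraicClosure F) E) (σ' : SA (AlgebraicClosure F) E')
      (K : Pic (AlgebraicClosure F) E) (K' : Pic (AlgebraicClosure F) E') (_ : Fintype (J σ))
      (_ : Fintype (J σ')) (Λ : LD (Fintype.card F) n (J σ)) (Λ' : LD (Fintype.card F) n (J σ')),
      Two C D e e' n σ σ' K K' Λ Λ'

-- imports: Pool.Agent.P.MP_9344a7_nt.Hy.M10
-- deps: Gt.TOR
def S_FIN : Prop := ∀ n : ℕ, 2 ≤ n → ∃ C0 p0 : ℕ, ∀ (F E E' : Type) [Field F] [Fintype F] [Field E]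
  [Algebra (AlgebraicClosure F) E] [Field E'] [Algebra (AlgebraicClosure F) E']
  [FF (AlgebraicClosure F) E] [FF (AlgebraicClosure F) E'] (C : Curve F E) (D : Curve F E')
  (e : C.PicF) (e' : D.PicF) (σ : SA (AlgebraicClosure F) E) (σ' : SA (AlgebraicClosure F) E')
  (K : Pic (AlgebraicClosure F) E) (K' : Pic (AlgebraicClosure F) E') [Fintype (J σ)]
  [Fintype (J σ')] (Λ : LD (Fintype.card F) n (J σ)) (Λ' : LD (Fintype.card F) n (J σ')),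
  p0 < ringChar F → Genus (AlgebraicClosure F) E (n + 1 : ℕ) →
  Genus (AlgebraicClosure F) E' (n + 1 : ℕ) → C.pts 1 = D.pts 1 → Two C D e e' n σ σ' K K' Λ Λ' →
  ∀ (θ : J σ ≃+ J σ') (t : J σ'), C0 * #{s ∈ Λ.S | θ s + t ∉ Λ'.S} ≤ Fintype.card F → C.Conj D

-- imports: Pool.Agent.P.MP_9344a7_nt.Hy.M2
-- deps: ZT EXL IRA TWO FIN Hy.PH
def S_IRR : Prop := ∀ g : ℕ, 3 ≤ g → ∃ p0 : ℕ, ∀ (F E E' : Type) [Field F] [Fintype F] [Field E]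
  [Algebra (AlgebraicClosure F) E] [Field E'] [Algebra (AlgebraicClosure F) E'] (C : Curve F E)
  (D : Curve F E') (e : C.PicF) (e' : D.PicF) (L M : ℚ[X]), p0 < ringChar F →
  Genus (AlgebraicClosure F) E g → Genus (AlgebraicClosure F) E' g → C.CyclicJ → C.h % 4 ≠ 2 →
  HasDeg e.1 1 → HasDeg e'.1 1 → IsLf (Fintype.card F) (C.ptsH e) L → Irreducible M → M ∣ L →
  M.natDegree = (2 * g - 2) * C.h.totient → (∀ m, 0 < m → C.pts m = D.pts m) →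
  (∀ m, 0 < m → C.ptsH e m = D.ptsH e' m) → C.Conj D

end Pool.Agent.P.MP_9344a7_nt.Nh
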